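import Pool.Agent.Run7.h320.WList
import Pool.Agent.Run7.h320.D.Bk

/-!
# List edge colourings of simple graphs: nibble, bipartite graphs, gluing
-/

set_option autoImplicit false
set_option linter.unusedSectionVars false

namespace Pool.Agent.Run7.h320.E

open Finset

/-- the neighbours -/
noncomputable def nb {V : Type} [Fintype V] (G : SimpleGraph V) (v : V) : Finset V :=
  @Finset.filter V (G.Adj v) (Classical.decPred _) univ

theorem mem_nb {V : Type} [Fintype V] {G : SimpleGraph V} {v w : V} :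
    w ∈ nb G v ↔ G.Adj v w := by
  classical
  unfold nb
  rw [mem_filter]
  simp

/-- the number of neighbours -/
noncomputable def dg {V : Type} [Fintype V] (G : SimpleGraph V) (v : V) : ℕ := (nb G v).card

theorem dg_ncard {V : Type} [Fintype V] (G : SimpleGraph V) (v : V) :
    dg G v = (G.neighborSet v).ncard := by
  unfold dg
  rw [← Set.ncard_coe_finset]
  congr 1
  ext w
  rw [mem_coe, mem_nb, SimpleGraph.mem_neighborSet]

/-- `χ` is a proper colouring of the edges of `G` from the lists `Λ` -/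
def EC {V C : Type} (G : SimpleGraph V) (Λ : Sym2 V → Finset C) (χ : Sym2 V → C) : Prop :=
  (∀ u v, G.Adj u v → χ s(u, v) ∈ Λ s(u, v)) ∧
    ∀ u v w, G.Adj u v → G.Adj u w → v ≠ w → χ s(u, v) ≠ χ s(u, w)

section
variable {V C : Type} [DecidableEq V] [DecidableEq C]

/-- the lists without the colours of `A` at the ends -/
def red (Λ : Sym2 V → Finset C) (A : V → Finset C) : Sym2 V → Finset C :=
  fun e => Λ e \ e.toFinset.biUnion A

theorem mem_red {Λ : Sym2 V → Finset C} {A : V → Finset C} {u v : V} {c : C} :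
    c ∈ red Λ A s(u, v) ↔ c ∈ Λ s(u, v) ∧ c ∉ A u ∧ c ∉ A v := by
  unfold red
  rw [mem_sdiff, mem_biUnion]
  constructor
  · rintro ⟨h1, h2⟩
    refine ⟨h1, fun h => h2 ⟨u, ?_, h⟩, fun h => h2 ⟨v, ?_, h⟩⟩ <;> simp
  · rintro ⟨h1, h2, h3⟩
    refine ⟨h1, ?_⟩
    rintro ⟨x, hx, hc⟩
    rw [Sym2.mem_toFinset, Sym2.mem_iff] at hx
    rcases hx with rfl | rfl
    · exact h2 hc
    · exact h3 hc

theorem card_red (Λ : Sym2 V → Finset C) (A : V → Finset C) (u v : V) :
    (Λ s(u, v)).card ≤ (red Λ A s(u, v)).card + (A u).card + (A v).card := by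
  have h1 : Λ s(u, v) ⊆ red Λ A s(u, v) ∪ A u ∪ A v := by
    intro c hc
    rw [mem_union, mem_union, mem_red]
    tauto
  have h2 := card_le_card h1
  have h3 := card_union_le (red Λ A s(u, v) ∪ A u) (A v)
  have h4 := card_union_le (red Λ A s(u, v)) (A u)
  omega

end

section
variable {V C : Type} [Fintype V] [DecidableEq V] [DecidableEq C]

/-- the colours used at `u` -/
noncomputable def us (G : SimpleGraph V) (χ : Sym2 V → C) (u : V) : Finset C :=
  (nb G u).image (fun w => χ s(u, w))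

theorem card_us_le (G : SimpleGraph V) (χ : Sym2 V → C) (u : V) : (us G χ u).card ≤ dg G u :=
  card_image_le

theorem mem_us' {G : SimpleGraph V} {χ : Sym2 V → C} {u v : V} (h : G.Adj u v) :
    χ s(u, v) ∈ us G χ u := mem_image.2 ⟨v, mem_nb.2 h, rfl⟩

/-- gluing -/
theorem glue2 {G G₁ G₂ : SimpleGraph V} {Λ Λ₂ : Sym2 V → Finset C} {χ₁ χ₂ : Sym2 V → C}
    (hG : ∀ u v, G.Adj u v → G₁.Adj u v ∨ G₂.Adj u v) (h1 : EC G₁ Λ χ₁) (h2 : EC G₂ Λ₂ χ₂)
    (hsub : ∀ u v, G₂.Adj u v → Λ₂ s(u, v) ⊆ Λ s(u, v))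
    (hav : ∀ u v w, G₂.Adj u v → G₁.Adj u w → χ₁ s(u, w) ∉ Λ₂ s(u, v)) :
    ∃ χ, EC G Λ χ ∧ (∀ u v, G₁.Adj u v → χ s(u, v) = χ₁ s(u, v)) ∧
      ∀ u v, ¬ G₁.Adj u v → χ s(u, v) = χ₂ s(u, v) := by
  classical
  obtain ⟨χ, hχ⟩ : ∃ χ : Sym2 V → C, χ = fun e => if e ∈ G₁.edgeSet then χ₁ e else χ₂ e :=
    ⟨_, rfl⟩
  have e1 : ∀ u v, G₁.Adj u v → χ s(u, v) = χ₁ s(u, v) := by
    intro u v h
    rw [hχ]
    exact if_pos h
  have e2 : ∀ u v, ¬ G₁.Adj u v → χ s(u, v) = χ₂ s(u, v) := by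
    intro u v h
    rw [hχ]
    exact if_neg h
  refine ⟨χ, ⟨?_, ?_⟩, e1, e2⟩
  · intro u v huv
    by_cases h : G₁.Adj u v
    · rw [e1 u v h]
      exact h1.1 u v h
    · have h' := (hG u v huv).resolve_left h
      rw [e2 u v h]
      exact hsub u v h' (h2.1 u v h')
  · intro u v w huv huw hvw
    by_cases h : G₁.Adj u v
    · by_cases h' : G₁.Adj u w
      · rw [e1 u v h, e1 u w h']
        exact h1.2 u v w h h' hvw
      · have h'' := (hG u w huw).resolve_left h'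
        rw [e1 u v h, e2 u w h']
        intro heq
        apply hav u w v h'' h
        rw [heq]
        exact h2.1 u w h''
    · have h3 := (hG u v huv).resolve_left h
      by_cases h' : G₁.Adj u w
      · rw [e2 u v h, e1 u w h']
        intro heq
        apply hav u v w h3 h'
        rw [← heq]
        exact h2.1 u v h3
      · have h'' := (hG u w huw).resolve_left h'
        rw [e2 u v h, e2 u w h']
        exact h2.2 u v w h3 h'' hvw

theorem pair_sym2 {u v u' v' : V} (h : ({u, v} : Finset V) = {u', v'}) : s(u, v) = s(u', v') := by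
  have h1 : (s(u, v)).toFinset = (s(u', v')).toFinset := by
    rw [Sym2.toFinset_mk_eq, Sym2.toFinset_mk_eq]
    exact h
  have h2 : ∀ x, x ∈ s(u, v) ↔ x ∈ s(u', v') := by
    intro x
    rw [← Sym2.mem_toFinset, h1, Sym2.mem_toFinset]
  exact Sym2.ext h2

/-- from colourings of sets with two elements -/
theorem ofPr [Nonempty C] {G : SimpleGraph V} {Λ : Sym2 V → Finset C} {H : Finset (Finset V)}
    {L : Finset V → Finset C} (hH : ∀ f, f ∈ H ↔ ∃ u v, G.Adj u v ∧ f = {u, v})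
    (hL : ∀ u v, G.Adj u v → L {u, v} ⊆ Λ s(u, v)) {φ : Finset V → C} (hφ : Pr H L φ) :
    ∃ χ, EC G Λ χ := by
  have hwd : ∀ x y : V, φ ({x, y} : Finset V) = φ ({y, x} : Finset V) := by
    intro x y
    rw [pair_comm]
  refine ⟨Sym2.lift ⟨fun x y => φ ({x, y} : Finset V), hwd⟩, ?_, ?_⟩
  · intro u v huv
    simp only [Sym2.lift_mk]
    exact hL u v huv (hφ.1 {u, v} ((hH _).2 ⟨u, v, huv, rfl⟩))
  · intro u v w huv huw hvw
    simp only [Sym2.lift_mk]
    apply hφ.2 _ ((hH _).2 ⟨u, v, huv, rfl⟩) _ ((hH _).2 ⟨u, w, huw, rfl⟩)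
    · intro heq
      have h3 := pair_sym2 heq
      rw [Sym2.eq_iff] at h3
      rcases h3 with ⟨-, h⟩ | ⟨h, h'⟩
      · exact hvw h
      · exact hvw (h'.trans h)
    · exact ⟨u, by simp⟩

end

/-- the nibble for simple graphs -/
theorem lkg (ε : ℝ) (hε0 : 0 < ε) (hε1 : ε ≤ 1) : ∃ D₀ : ℕ, ∀ D : ℕ, D₀ ≤ D →
    ∀ (V C : Type) [Fintype V] [DecidableEq V] [DecidableEq C] [Nonempty C] (G : SimpleGraph V)
      (Λ : Sym2 V → Finset C), (∀ v, dg G v ≤ D) →
      (∀ u v, G.Adj u v → (dg G u : ℝ) + ε * D ≤ (Λ s(u, v)).card) → ∃ χ, EC G Λ χ := by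
  classical
  obtain ⟨D₀, hD₀⟩ := wlist 2 (by norm_num) (ε / 2) (by positivity) (by linarith) (3 / ε)
    (by positivity)
  refine ⟨max D₀ 1, ?_⟩
  intro D hD V C _ _ _ _ G Λ hdeg hΛ
  have hD1 : 1 ≤ D := (le_max_right _ _).trans hD
  have hD0 : D₀ ≤ 2 * D := by
    have := (le_max_left D₀ 1).trans hD
    omega
  have hDR : (1 : ℝ) ≤ D := by exact_mod_cast hD1
  have hsub : ∀ e : Sym2 V, ∃ S : Finset C, S ⊆ Λ e ∧ S.card = min (Λ e).card (2 * D) := by
    intro e
    exact exists_subset_card_eq (min_le_left _ _)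
  choose Λ' hΛ'1 hΛ'2 using hsub
  obtain ⟨H, hH⟩ : ∃ H : Finset (Finset V), H = univ.filter (fun f => ∃ u v, G.Adj u v ∧
    f = {u, v}) := ⟨_, rfl⟩
  have memH : ∀ f, f ∈ H ↔ ∃ u v, G.Adj u v ∧ f = {u, v} := by
    intro f
    rw [hH, mem_filter]
    simp
  have hLex : ∀ f : Finset V, ∃ S : Finset C, ∀ u v, G.Adj u v → f = {u, v} → S = Λ' s(u, v) := by
    intro f
    by_cases h : ∃ u v, G.Adj u v ∧ f = {u, v}
    · obtain ⟨u, v, _, hf⟩ := h
      refine ⟨Λ' s(u, v), ?_⟩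
      intro u' v' _ hf'
      rw [hf] at hf'
      rw [pair_sym2 hf']
    · push Not at h
      exact ⟨∅, fun u v huv hf => absurd hf (h u v huv)⟩
  choose L hL using hLex
  have hLuv : ∀ u v, G.Adj u v → L {u, v} = Λ' s(u, v) := fun u v huv => hL _ u v huv rfl
  have hcard : ∀ u v, G.Adj u v → (dg G u : ℝ) + ε * D ≤ (L {u, v}).card := by
    intro u v huv
    rw [hLuv u v huv, hΛ'2, Nat.cast_min, le_min_iff]
    refine ⟨hΛ u v huv, ?_⟩
    push_cast
    have h3 : (dg G u : ℝ) ≤ D := by exact_mod_cast hdeg u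
    have h4 : ε * D ≤ 1 * D := mul_le_mul_of_nonneg_right hε1 (by linarith)
    linarith
  have hlin : ∀ e ∈ H, ∀ f ∈ H, e ≠ f → (e ∩ f).card ≤ 1 := by
    intro e he f hf hne
    obtain ⟨u, v, huv, rfl⟩ := (memH e).1 he
    obtain ⟨u', v', huv', rfl⟩ := (memH f).1 hf
    by_contra hcon
    push Not at hcon
    apply hne
    have c1 := card_pair huv.ne
    have c2 := card_pair huv'.ne
    have h3 : ({u, v} : Finset V) ∩ {u', v'} = {u, v} :=
      eq_of_subset_of_card_le inter_subset_left (by omega)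
    have h4 : ({u, v} : Finset V) ∩ {u', v'} = {u', v'} :=
      eq_of_subset_of_card_le inter_subset_right (by omega)
    rw [← h3, h4]
  have hat : ∀ v f, f ∈ at' H v ↔ ∃ w, G.Adj v w ∧ f = {v, w} := by
    intro u f
    rw [mem_at, memH]
    constructor
    · rintro ⟨⟨x, y, hxy, rfl⟩, hu⟩
      rw [mem_insert, mem_singleton] at hu
      rcases hu with rfl | rfl
      · exact ⟨y, hxy, rfl⟩
      · exact ⟨x, hxy.symm, pair_comm _ _⟩
    · rintro ⟨v, huv, rfl⟩
      exact ⟨⟨u, v, huv, rfl⟩, by simp⟩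
  have hatc : ∀ v, (at' H v).card ≤ dg G v := by
    intro v
    have h3 : at' H v ⊆ (nb G v).image (fun w => ({v, w} : Finset V)) := by
      intro f hf
      obtain ⟨w, hw, rfl⟩ := (hat v f).1 hf
      exact mem_image.2 ⟨w, mem_nb.2 hw, rfl⟩
    exact (card_le_card h3).trans card_image_le
  obtain ⟨φ, hφ⟩ := hD₀ (2 * D) hD0 V H (fun e he => by
      obtain ⟨u, v, huv, rfl⟩ := (memH e).1 he
      exact ⟨u, by simp⟩) (fun e he => by
      obtain ⟨u, v, huv, rfl⟩ := (memH e).1 he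
      exact card_le_two) hlin (fun v => ((hatc v).trans (hdeg v)).trans (by omega)) C L
    (fun e _ => (1 + ε / 2) / (L e).card) (fun e he => by
      obtain ⟨u, v, huv, rfl⟩ := (memH e).1 he
      rw [hLuv u v huv, hΛ'2]
      exact min_le_right _ _) (fun e _ c _ => by positivity) (fun e he c _ => by
      obtain ⟨u, v, huv, rfl⟩ := (memH e).1 he
      have h3 := hcard u v huv
      have h4 : (0 : ℝ) ≤ dg G u := Nat.cast_nonneg _
      have h5 : ε * D ≤ (L {u, v}).card := by linarith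
      have h6 : 0 < ε * D := by positivity
      push_cast
      rw [div_le_iff₀ (by linarith)]
      have h7 : 3 / ε / (2 * (D : ℝ)) * (ε * D) ≤ 3 / ε / (2 * (D : ℝ)) * (L {u, v}).card :=
        mul_le_mul_of_nonneg_left h5 (by positivity)
      have h8 : 3 / ε / (2 * (D : ℝ)) * (ε * D) = 3 / 2 := by
        field_simp
      linarith) (fun v c => by
      have h3 : ∀ e ∈ (at' H v).filter (fun e => c ∈ L e),
          (1 + ε / 2) / ((L e).card : ℝ) ≤ (1 + ε / 2) / ((dg G v : ℝ) + ε * D) := by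
        intro e he
        rw [mem_filter] at he
        obtain ⟨w, hw, rfl⟩ := (hat v e).1 he.1
        have h4 := hcard v w hw
        have h5 : (0 : ℝ) ≤ dg G v := Nat.cast_nonneg _
        exact div_le_div_of_nonneg_left (by linarith) (by positivity) h4
      refine (sum_le_card_nsmul _ _ _ h3).trans ?_
      rw [nsmul_eq_mul]
      have h4 : (((at' H v).filter (fun e => c ∈ L e)).card : ℝ) ≤ dg G v := by
        exact_mod_cast (card_filter_le _ _).trans (hatc v)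
      have h5 : (0 : ℝ) ≤ dg G v := Nat.cast_nonneg _
      have h6 : 0 < (dg G v : ℝ) + ε * D := by positivity
      have h7 : (dg G v : ℝ) ≤ D := by exact_mod_cast hdeg v
      refine (mul_le_mul_of_nonneg_right h4 (by positivity)).trans ?_
      rw [mul_div_assoc', div_le_one h6]
      have h8 : ε * (dg G v : ℝ) ≤ ε * D := mul_le_mul_of_nonneg_left h7 hε0.le
      have h9 : 0 ≤ ε * (D : ℝ) := by positivity
      linarith) (fun e he => by
      obtain ⟨u, v, huv, rfl⟩ := (memH e).1 he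
      have h3 := hcard u v huv
      have h4 : (0 : ℝ) ≤ dg G u := Nat.cast_nonneg _
      have h6 : 0 < ε * D := by positivity
      have h7 : (0 : ℝ) < (L {u, v}).card := by linarith
      rw [sum_const, nsmul_eq_mul, mul_div_cancel₀ _ h7.ne'])
  exact ofPr memH (fun u v huv => by
    rw [hLuv u v huv]
    exact hΛ'1 _) hφ

/-- bipartite graphs -/
theorem bkg {V C : Type} [Fintype V] [DecidableEq V] [DecidableEq C] [Nonempty C]
    {G : SimpleGraph V} {T : Finset V} {Λ : Sym2 V → Finset C}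
    (hbip : ∀ u v, G.Adj u v → (u ∈ T ∧ v ∉ T) ∨ (v ∈ T ∧ u ∉ T))
    (h1 : ∀ u v, u ∈ T → G.Adj u v → dg G u ≤ (Λ s(u, v)).card)
    (h2 : ∀ u v, u ∈ T → G.Adj u v → dg G v ≤ (Λ s(u, v)).card) : ∃ χ, EC G Λ χ := by
  classical
  obtain ⟨E, hE⟩ : ∃ E : Finset (V × V), E = univ.filter (fun q => q.1 ∈ T ∧ q.2 ∉ T ∧
    G.Adj q.1 q.2) := ⟨_, rfl⟩
  have memE : ∀ u v, (u, v) ∈ E ↔ u ∈ T ∧ v ∉ T ∧ G.Adj u v := by
    intro u v
    rw [hE, mem_filter]
    simp
  obtain ⟨φ, hφ1, hφ2⟩ := D.bk E (fun q => Λ s(q.1, q.2)) (by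
    rintro ⟨u, v⟩ he
    rw [memE] at he
    refine le_trans ?_ (h1 u v he.1 he.2.2)
    refine card_le_card_of_injOn (fun q => q.2) ?_ ?_
    · rintro ⟨a, b⟩ hq
      rw [mem_coe, mem_filter, memE] at hq
      obtain ⟨⟨_, _, hab⟩, ha⟩ := hq
      simp only at ha
      rw [mem_coe, mem_nb, ← ha]
      exact hab
    · rintro ⟨a, b⟩ hq ⟨a', b'⟩ hq' heq
      rw [mem_coe, mem_filter] at hq hq'
      exact Prod.ext (hq.2.trans hq'.2.symm) heq) (by
    rintro ⟨u, v⟩ he
    rw [memE] at he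
    refine le_trans ?_ (h2 u v he.1 he.2.2)
    refine card_le_card_of_injOn (fun q => q.1) ?_ ?_
    · rintro ⟨a, b⟩ hq
      rw [mem_coe, mem_filter, memE] at hq
      obtain ⟨⟨_, _, hab⟩, hb⟩ := hq
      simp only at hb
      rw [mem_coe, mem_nb, ← hb]
      exact hab.symm
    · rintro ⟨a, b⟩ hq ⟨a', b'⟩ hq' heq
      rw [mem_coe, mem_filter] at hq hq'
      exact Prod.ext heq (hq.2.trans hq'.2.symm))
  have hwd : ∀ x y : V, (if x ∈ T ∧ y ∉ T then φ (x, y) else if y ∈ T ∧ x ∉ T then φ (y, x) else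
      Classical.arbitrary C) = (if y ∈ T ∧ x ∉ T then φ (y, x) else if x ∈ T ∧ y ∉ T then φ (x, y)
      else Classical.arbitrary C) := by
    intro x y
    by_cases h : x ∈ T ∧ y ∉ T
    · have h' : ¬ (y ∈ T ∧ x ∉ T) := fun h'' => h.2 h''.1
      rw [if_pos h, if_neg h', if_pos h]
    · rw [if_neg h]
      by_cases h' : y ∈ T ∧ x ∉ T
      · rw [if_pos h', if_pos h']
      · rw [if_neg h', if_neg h', if_neg h]
  obtain ⟨χ, hχ⟩ : ∃ χ : Sym2 V → C, χ = Sym2.lift ⟨fun x y => if x ∈ T ∧ y ∉ T then φ (x, y) else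
    if y ∈ T ∧ x ∉ T then φ (y, x) else Classical.arbitrary C, hwd⟩ := ⟨_, rfl⟩
  have e1 : ∀ u v, u ∈ T → v ∉ T → χ s(u, v) = φ (u, v) := by
    intro u v hu hv
    rw [hχ]
    simp only [Sym2.lift_mk]
    exact if_pos ⟨hu, hv⟩
  refine ⟨χ, ?_, ?_⟩
  · intro u v huv
    rcases hbip u v huv with ⟨hu, hv⟩ | ⟨hv, hu⟩
    · rw [e1 u v hu hv]
      exact hφ1 (u, v) ((memE u v).2 ⟨hu, hv, huv⟩)
    · rw [Sym2.eq_swap, e1 v u hv hu]
      exact hφ1 (v, u) ((memE v u).2 ⟨hv, hu, huv.symm⟩)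
  · intro u v w huv huw hvw
    rcases hbip u v huv with ⟨hu, hv⟩ | ⟨hv, hu⟩
    · have hw : w ∉ T := by
        rcases hbip u w huw with h | h
        · exact h.2
        · exact absurd hu h.2
      rw [e1 u v hu hv, e1 u w hu hw]
      refine hφ2 (u, w) ((memE u w).2 ⟨hu, hw, huw⟩) (u, v) ((memE u v).2 ⟨hu, hv, huv⟩) ?_
        (Or.inl rfl)
      intro heq
      exact hvw (congrArg Prod.snd heq)
    · have hw : w ∈ T := by
        rcases hbip u w huw with h | h
        · exact absurd h.1 hu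
        · exact h.1
      rw [Sym2.eq_swap, e1 v u hv hu, Sym2.eq_swap (a := u) (b := w), e1 w u hw hu]
      refine hφ2 (w, u) ((memE w u).2 ⟨hw, hu, huw.symm⟩) (v, u)
        ((memE v u).2 ⟨hv, hu, huv.symm⟩) ?_ (Or.inr rfl)
      intro heq
      exact hvw (congrArg Prod.fst heq)

end Pool.Agent.Run7.h320.E
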