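import Pool.Agent.Run7.h320.E.Tot

/-!
# (p,1)-total labelings from lists: the statements
-/

set_option autoImplicit false
set_option linter.unusedSectionVars false

namespace Pool.Agent.Run7.h320.E

open Finset

theorem dT_ncard {V : Type} [Fintype V] [DecidableEq V] (G : SimpleGraph V) (T : Finset V)
    (v : V) : dT G T v = {w : V | w ∈ T ∧ G.Adj v w}.ncard := by
  unfold dT
  rw [← Set.ncard_coe_finset]
  congr 1
  ext w
  rw [mem_coe, mem_filter, mem_nb, Set.mem_ofPred_eq, and_comm]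

/-- labelings from lists -/
def LL {V : Type} (G : SimpleGraph V) (p k : ℕ) : Prop :=
  ∀ (M : V → Finset ℕ) (L : Sym2 V → Finset ℕ), (∀ v, k ≤ (M v).card) →
    (∀ e ∈ G.edgeSet, k ≤ (L e).card) →
    ∃ (fV : V → ℕ) (fE : Sym2 V → ℕ), (∀ v, fV v ∈ M v) ∧ (∀ e ∈ G.edgeSet, fE e ∈ L e) ∧
      (∀ u v, G.Adj u v → fV u ≠ fV v) ∧
      (∀ u v w, G.Adj u v → G.Adj u w → v ≠ w → fE s(u, v) ≠ fE s(u, w)) ∧
      (∀ u v, G.Adj u v → (p : ℤ) ≤ |(fV u : ℤ) - (fE s(u, v) : ℤ)|)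

theorem hyN (ε : ℝ) (hε : 0 < ε) : ∃ c : ℝ, 0 < c ∧ ∃ D₀ : ℕ, ∀ D p : ℕ, D₀ ≤ D → 1 ≤ p →
    (p : ℝ) ≤ c * D → ∀ (V : Type) [Fintype V] (G : SimpleGraph V) (T : Finset V),
      (∀ v, (G.neighborSet v).ncard ≤ D) →
      (∀ v ∈ T, ({w : V | w ∈ T ∧ G.Adj v w}.ncard : ℝ) ≤ (1 - ε) * D) →
      (∀ v x, v ∈ T → x ∉ T → G.Adj v x →
        {w : V | w ∈ T ∧ G.Adj v w}.ncard + {w : V | w ∈ T ∧ G.Adj x w}.ncard ≤ D) →
      (∀ x, x ∉ T → ((G.neighborSet x).ncard : ℝ) +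
        (2 * p - 1) * {w : V | w ∈ T ∧ G.Adj x w}.ncard ≤ (1 - ε) * D) →
      (∀ x y, x ∉ T → y ∉ T → G.Adj x y → ((G.neighborSet x).ncard : ℝ) +
        {w : V | w ∈ T ∧ G.Adj y w}.ncard ≤ (1 - ε) * D) →
      LL G p (D + 2 * p - 1) := by
  classical
  obtain ⟨ε', hε'⟩ : ∃ ε' : ℝ, ε' = min ε (1 / 2) := ⟨_, rfl⟩
  have he0 : 0 < ε' := by
    rw [hε']
    exact lt_min hε (by norm_num)
  have he1 : ε' ≤ 1 / 2 := by
    rw [hε']
    exact min_le_right _ _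
  have hee : ε' ≤ ε := by
    rw [hε']
    exact min_le_left _ _
  obtain ⟨D₀, hD₀⟩ := tpg ε' he0 he1
  refine ⟨ε' / 8, by positivity, max D₀ ⌈8 / ε'⌉₊, ?_⟩
  intro D p hD hp hpD V _ G T hdeg h1 h2 h3 h4 M L hM hL
  have hDR : (0 : ℝ) ≤ D := Nat.cast_nonneg _
  have hD8 : 8 ≤ ε' * D := by
    have h5 : 8 / ε' ≤ (D : ℝ) :=
      (Nat.le_ceil _).trans (by exact_mod_cast (le_max_right _ _).trans hD)
    rw [div_le_iff₀ he0] at h5
    linarith
  have hεD : (1 - ε) * (D : ℝ) ≤ (1 - ε') * D :=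
    mul_le_mul_of_nonneg_right (by linarith) hDR
  have hP0 : ∀ v, dT G ∅ v = 0 := by
    intro v
    unfold dT
    simp
  obtain ⟨f, χ, -, f2, f3, f4, f5⟩ := hD₀ D p ((le_max_left _ _).trans hD) hp (by linarith) V G T ∅
    M L (fun _ => 0) (fun _ => ∅) (fun v => by rw [dg_ncard]; exact hdeg v) (fun v _ => hM v)
    (fun u v huv => hL _ huv) (fun u v hu => absurd hu (notMem_empty _))
    (fun v => by rw [hP0]; exact Nat.zero_le _) (fun _ _ => rfl)
    (fun v hv => absurd hv (notMem_empty _)) (fun v hv => by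
      rw [dT_ncard]
      exact (h1 v hv).trans hεD) (fun v x hv hx hvx => by
      rw [hP0, dT_ncard, dT_ncard, card_empty]
      exact h2 v x hv hx hvx) (fun x hx => by
      rw [dT_ncard, dg_ncard]
      exact (h3 x hx).trans hεD) (fun x y hx hy hxy => by
      rw [dT_ncard, dg_ncard]
      exact (h4 x y hx hy hxy).trans hεD)
  refine ⟨f, χ, fun v => f2 v (notMem_empty _), ?_, f3, f4.2, ?_⟩
  · intro e he
    induction e using Sym2.ind with
    | _ u v => exact f4.1 u v he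
  · intro u v huv
    have h5 := (f5 u v huv).1
    rw [mem_win] at h5
    rw [le_abs]
    rcases lt_or_ge (f u) (χ s(u, v) + p) with h6 | h6
    · right
      have h7 : ¬ (χ s(u, v) < f u + p) := fun h => h5 ⟨h6, h⟩
      omega
    · left
      omega

/-- few neighbours of large degree -/
theorem hyA (δ : ℝ) (hδ : 0 < δ) : ∃ c : ℝ, 0 < c ∧ ∃ D₀ : ℕ, ∀ D p : ℕ, D₀ ≤ D → 1 ≤ p →
    (p : ℝ) ≤ c * D → ∀ (V : Type) [Fintype V] (G : SimpleGraph V),
      (∀ v, (G.neighborSet v).ncard ≤ D) →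
      (∀ v, ({w : V | (1 - δ) * D < (G.neighborSet w).ncard ∧ G.Adj v w}.ncard : ℝ) ≤
        c * D / p) → LL G p (D + 2 * p - 1) := by
  classical
  obtain ⟨δ', hδ'⟩ : ∃ δ' : ℝ, δ' = min δ 1 := ⟨_, rfl⟩
  have hd0 : 0 < δ' := by
    rw [hδ']
    exact lt_min hδ one_pos
  have hd1 : δ' ≤ 1 := by
    rw [hδ']
    exact min_le_right _ _
  have hdd : δ' ≤ δ := by
    rw [hδ']
    exact min_le_left _ _
  obtain ⟨c, hc, D₀, h⟩ := hyN (δ' / 2) (by positivity)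
  refine ⟨min c (δ' / 4), lt_min hc (by positivity), D₀, ?_⟩
  intro D p hD hp hpD V _ G hdeg hfew
  have hDR : (0 : ℝ) ≤ D := Nat.cast_nonneg _
  have hpR : (1 : ℝ) ≤ p := by exact_mod_cast hp
  obtain ⟨T, hT⟩ : ∃ T : Finset V, T = univ.filter (fun w => (1 - δ) * D <
    (G.neighborSet w).ncard) := ⟨_, rfl⟩
  have hTs : ∀ v, {w : V | w ∈ T ∧ G.Adj v w} =
      {w : V | (1 - δ) * D < (G.neighborSet w).ncard ∧ G.Adj v w} := by
    intro v
    ext w
    simp [hT]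
  obtain ⟨t, ht⟩ : ∃ t : ℝ, t = min c (δ' / 4) * D / p := ⟨_, rfl⟩
  have ht1 : (p : ℝ) * t = min c (δ' / 4) * D := by
    rw [ht]
    field_simp
  have ht0 : 0 ≤ t := by
    rw [ht]
    have : 0 ≤ min c (δ' / 4) := (lt_min hc (by positivity)).le
    positivity
  have ht2 : (p : ℝ) * t ≤ δ' / 4 * D := by
    rw [ht1]
    exact mul_le_mul_of_nonneg_right (min_le_right _ _) hDR
  have ht3 : t ≤ δ' / 4 * D := by
    have : 1 * t ≤ p * t := mul_le_mul_of_nonneg_right hpR ht0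
    linarith
  have hTt : ∀ v, ({w : V | w ∈ T ∧ G.Adj v w}.ncard : ℝ) ≤ t := by
    intro v
    rw [hTs, ht]
    exact hfew v
  have hδD : δ' * (D : ℝ) ≤ 1 * D := mul_le_mul_of_nonneg_right hd1 hDR
  have hδD0 : 0 ≤ δ' * (D : ℝ) := by positivity
  have hsm : ∀ x, x ∉ T → ((G.neighborSet x).ncard : ℝ) ≤ (1 - δ') * D := by
    intro x hx
    by_contra hcon
    push Not at hcon
    apply hx
    rw [hT, mem_filter]
    refine ⟨mem_univ _, lt_of_le_of_lt ?_ hcon⟩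
    exact mul_le_mul_of_nonneg_right (by linarith) hDR
  refine h D p hD hp (hpD.trans (mul_le_mul_of_nonneg_right (min_le_left _ _) hDR)) V G T hdeg
    ?_ ?_ ?_ ?_
  · intro v _
    have := hTt v
    linarith
  · intro v x _ _ _
    have h5 := hTt v
    have h6 := hTt x
    have h7 : ({w : V | w ∈ T ∧ G.Adj v w}.ncard : ℝ) + {w : V | w ∈ T ∧ G.Adj x w}.ncard ≤ D := by
      linarith
    exact_mod_cast h7
  · intro x hx
    have h5 := hTt x
    have h6 := hsm x hx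
    have h7 : (2 * (p : ℝ) - 1) * {w : V | w ∈ T ∧ G.Adj x w}.ncard ≤ (2 * p - 1) * t :=
      mul_le_mul_of_nonneg_left h5 (by linarith)
    linarith
  · intro x y hx _ _
    have h5 := hTt y
    have h6 := hsm x hx
    linarith

/-- the threshold `D / (2 p)` -/
theorem hyB (p : ℕ) (hp : 1 ≤ p) (ε : ℝ) (hε : 0 < ε) : ∃ D₀ : ℕ, ∀ D : ℕ, D₀ ≤ D →
    ∀ (V : Type) [Fintype V] (G : SimpleGraph V), (∀ v, (G.neighborSet v).ncard ≤ D) →
      (∀ v, (1 - ε) * D / (2 * p) < (G.neighborSet v).ncard →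
        ({w : V | (1 - ε) * D / (2 * p) < (G.neighborSet w).ncard ∧ G.Adj v w}.ncard : ℝ) ≤
          (1 - 1 / (2 * p)) * D) → LL G p (D + 2 * p - 1) := by
  classical
  obtain ⟨ε', hε'⟩ : ∃ ε' : ℝ, ε' = min ε (1 / (2 * p)) := ⟨_, rfl⟩
  have hpR : (1 : ℝ) ≤ p := by exact_mod_cast hp
  have he0 : 0 < ε' := by
    rw [hε']
    exact lt_min hε (by positivity)
  have he1 : ε' ≤ 1 / (2 * p) := by
    rw [hε']
    exact min_le_right _ _
  have hee : ε' ≤ ε := by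
    rw [hε']
    exact min_le_left _ _
  obtain ⟨c, hc, D₀, h⟩ := hyN ε' he0
  refine ⟨max D₀ ⌈(p : ℝ) / c⌉₊, ?_⟩
  intro D hD V _ G hdeg hfew
  have hDR : (0 : ℝ) ≤ D := Nat.cast_nonneg _
  have hpD : (p : ℝ) ≤ c * D := by
    have h5 : (p : ℝ) / c ≤ (D : ℝ) :=
      (Nat.le_ceil _).trans (by exact_mod_cast (le_max_right _ _).trans hD)
    rw [div_le_iff₀ hc] at h5
    linarith
  obtain ⟨T, hT⟩ : ∃ T : Finset V, T = univ.filter (fun w => (1 - ε) * D / (2 * p) <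
    (G.neighborSet w).ncard) := ⟨_, rfl⟩
  have hTs : ∀ v, {w : V | w ∈ T ∧ G.Adj v w} =
      {w : V | (1 - ε) * D / (2 * p) < (G.neighborSet w).ncard ∧ G.Adj v w} := by
    intro v
    ext w
    simp [hT]
  have hT1 : ∀ v ∈ T, ({w : V | w ∈ T ∧ G.Adj v w}.ncard : ℝ) ≤ (1 - 1 / (2 * p)) * D := by
    intro v hv
    rw [hTs]
    rw [hT, mem_filter] at hv
    exact hfew v hv.2
  have hsm : ∀ x, x ∉ T → ((G.neighborSet x).ncard : ℝ) ≤ (1 - ε') * D / (2 * p) := by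
    intro x hx
    by_contra hcon
    push Not at hcon
    apply hx
    rw [hT, mem_filter]
    refine ⟨mem_univ _, lt_of_le_of_lt ?_ hcon⟩
    apply div_le_div_of_nonneg_right _ (by positivity)
    exact mul_le_mul_of_nonneg_right (by linarith) hDR
  have hTd : ∀ x, ({w : V | w ∈ T ∧ G.Adj x w}.ncard : ℝ) ≤ (G.neighborSet x).ncard := by
    intro x
    have : {w : V | w ∈ T ∧ G.Adj x w}.ncard ≤ (G.neighborSet x).ncard :=
      Set.ncard_le_ncard (fun w hw => hw.2) (Set.toFinite _)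
    exact_mod_cast this
  obtain ⟨q, hq⟩ : ∃ q : ℝ, q = (1 - ε') * D / (2 * p) := ⟨_, rfl⟩
  have hq1 : 2 * (p : ℝ) * q = (1 - ε') * D := by
    rw [hq]
    field_simp
  have hhalf : 1 / (2 * (p : ℝ)) ≤ 1 / 2 := by
    rw [div_le_div_iff₀ (by positivity) (by norm_num)]
    linarith
  have hq0 : 0 ≤ q := by
    rw [hq]
    have : 0 ≤ (1 - ε') * (D : ℝ) := mul_nonneg (by linarith) hDR
    positivity
  have hqD : q ≤ 1 / (2 * p) * D := by
    rw [hq, div_mul_eq_mul_div, one_mul]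
    apply div_le_div_of_nonneg_right _ (by positivity)
    nlinarith
  have hsm' : ∀ x, x ∉ T → ((G.neighborSet x).ncard : ℝ) ≤ q := by
    intro x hx
    rw [hq]
    exact hsm x hx
  refine h D p ((le_max_left _ _).trans hD) hp hpD V G T hdeg ?_ ?_ ?_ ?_
  · intro v hv
    refine (hT1 v hv).trans ?_
    exact mul_le_mul_of_nonneg_right (by linarith) hDR
  · intro v x hv hx _
    have h5 := hT1 v hv
    have h6 := (hTd x).trans (hsm' x hx)
    have h7 : ({w : V | w ∈ T ∧ G.Adj v w}.ncard : ℝ) + {w : V | w ∈ T ∧ G.Adj x w}.ncard ≤ D := by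
      linarith
    exact_mod_cast h7
  · intro x hx
    have h5 := (hTd x).trans (hsm' x hx)
    have h6 := hsm' x hx
    have h7 : (2 * (p : ℝ) - 1) * {w : V | w ∈ T ∧ G.Adj x w}.ncard ≤ (2 * p - 1) * q :=
      mul_le_mul_of_nonneg_left h5 (by linarith)
    linarith
  · intro x y hx hy _
    have h5 := (hTd y).trans (hsm' y hy)
    have h6 := hsm' x hx
    have h7 : 1 * q ≤ p * q := mul_le_mul_of_nonneg_right hpR hq0
    linarith

end Pool.Agent.Run7.h320.E
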