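import Pool.Agent.Run7.h320.E.HY

/-!
# Extending total colourings of matchings from lists
-/

set_option autoImplicit false
set_option linter.unusedSectionVars false

namespace Pool.Agent.Run7.h320.E

open Finset

theorem dT_mono {V : Type} [Fintype V] [DecidableEq V] {G G' : SimpleGraph V} (h : G' ≤ G)
    (T : Finset V) (v : V) : dT G' T v ≤ dT G T v := by
  apply card_le_card
  intro w hw
  rw [mem_filter, mem_nb] at hw ⊢
  exact ⟨h hw.1, hw.2⟩

theorem dg_mono {V : Type} [Fintype V] [DecidableEq V] {G G' : SimpleGraph V} (h : G' ≤ G)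
    (v : V) : dg G' v ≤ dg G v := by
  apply card_le_card
  intro w hw
  rw [mem_nb] at hw ⊢
  exact h hw

theorem win_one (a x : ℕ) : x ∈ win 1 a ↔ x = a := by
  rw [mem_win]
  omega

/-- extending a total colouring of the matching `H` -/
theorem tcp (ε : ℝ) (hε0 : 0 < ε) (hε1 : ε ≤ 1 / 2) : ∃ D₀ : ℕ, ∀ D : ℕ, D₀ ≤ D →
    ∀ (V : Type) [Fintype V] [DecidableEq V] (G H : SimpleGraph V) (T P : Finset V)
      (M : V → Finset ℕ) (L : Sym2 V → Finset ℕ) (c : V → ℕ) (d : Sym2 V → ℕ),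
      H ≤ G → (∀ v, v ∈ P ↔ ∃ w, H.Adj v w) → (∀ u v w, H.Adj u v → H.Adj u w → v = w) →
      (∀ u ∈ P, ∀ v ∈ P, G.Adj u v → H.Adj u v) →
      (∀ v, dT G P v ≤ 2) →
      (∀ v, dg G v ≤ D) → (∀ v, v ∉ P → D + 1 ≤ (M v).card) →
      (∀ u v, G.Adj u v → D + 1 ≤ (L s(u, v)).card) →
      (∀ u v, H.Adj u v → c u ≠ c v) → (∀ u v, H.Adj u v → d s(u, v) ≠ c u) →
      (∀ v ∈ T, (dT G T v : ℝ) ≤ (1 - ε) * D) →
      (∀ v x, v ∈ T → x ∉ T → G.Adj v x → dT G T v + dT G T x + 2 ≤ D) →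
      (∀ x, x ∉ T → (dg G x : ℝ) + dT G T x ≤ (1 - ε) * D) →
      (∀ x y, x ∉ T → y ∉ T → G.Adj x y → (dg G x : ℝ) + dT G T y ≤ (1 - ε) * D) →
      ∃ (c' : V → ℕ) (d' : Sym2 V → ℕ), (∀ u v, G.Adj u v → c' u ≠ c' v) ∧
        (∀ u v w, G.Adj u v → G.Adj u w → v ≠ w → d' s(u, v) ≠ d' s(u, w)) ∧
        (∀ u v, G.Adj u v → d' s(u, v) ≠ c' u) ∧ (∀ v ∈ P, c' v = c v) ∧
        (∀ e ∈ H.edgeSet, d' e = d e) ∧ (∀ v, v ∉ P → c' v ∈ M v) ∧
        ∀ e ∈ G.edgeSet, e ∉ H.edgeSet → d' e ∈ L e := by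
  classical
  obtain ⟨D₀, hD₀⟩ := tpg ε hε0 hε1
  refine ⟨max D₀ ⌈8 / ε⌉₊, ?_⟩
  intro D hD V _ _ G H T P M L c d hle memP hmat p1 p3 hdeg hM hL hc hd h1 h2 h3 h4
  have hDR : (0 : ℝ) ≤ D := Nat.cast_nonneg _
  have hD8 : 8 ≤ ε * D := by
    have h5 : 8 / ε ≤ (D : ℝ) :=
      (Nat.le_ceil _).trans (by exact_mod_cast (le_max_right _ _).trans hD)
    rw [div_le_iff₀ hε0] at h5
    linarith
  obtain ⟨G', hG'⟩ : ∃ G' : SimpleGraph V, G' = G \ H := ⟨_, rfl⟩
  have adj' : ∀ u v, G'.Adj u v ↔ G.Adj u v ∧ ¬ H.Adj u v := by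
    intro u v
    rw [hG', SimpleGraph.sdiff_adj]
  have hGG : G' ≤ G := by
    intro u v huv
    exact ((adj' u v).1 huv).1
  obtain ⟨F, hF⟩ : ∃ F : V → Finset ℕ, F = fun v => (nb H v).image (fun w => d s(v, w)) :=
    ⟨_, rfl⟩
  have hF0 : ∀ v, v ∉ P → F v = ∅ := by
    intro v hv
    rw [hF]
    simp only [image_eq_empty]
    rw [eq_empty_iff_forall_notMem]
    intro w hw
    exact hv ((memP v).2 ⟨w, mem_nb.1 hw⟩)
  have hF1 : ∀ v, (F v).card ≤ 1 := by
    intro v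
    rw [hF]
    refine card_image_le.trans ?_
    rw [card_le_one]
    intro a ha b hb
    exact hmat v a b (mem_nb.1 ha) (mem_nb.1 hb)
  have hFm : ∀ u w, H.Adj u w → d s(u, w) ∈ F u := by
    intro u w h
    rw [hF]
    exact mem_image.2 ⟨w, mem_nb.2 h, rfl⟩
  have hPi : ∀ u v, u ∈ P → v ∈ P → ¬ G'.Adj u v := by
    intro u v hu hv huv
    rw [adj'] at huv
    exact huv.2 (p1 u hu v hv huv.1)
  have hP2 : ∀ v, dT G' P v ≤ 2 := by
    intro v
    exact (dT_mono hGG P v).trans (p3 v)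
  obtain ⟨f, χ, f1, f2, f3, f4, f5⟩ := hD₀ D 1 ((le_max_left _ _).trans hD) le_rfl
    (by push_cast; linarith) V G' T P M L c F (fun v => (dg_mono hGG v).trans (hdeg v))
    (fun v hv => by
      have := hM v hv
      omega) (fun u v huv => by
      have := hL u v (hGG huv)
      omega) hPi hP2 hF0 (fun v hv => ⟨hF1 v, by
      obtain ⟨w, hw⟩ := (memP v).1 hv
      refine le_trans ?_ (hdeg v)
      unfold dg
      refine card_lt_card ?_
      rw [ssubset_iff_of_subset (fun x hx => mem_nb.2 (hGG (mem_nb.1 hx)))]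
      refine ⟨w, mem_nb.2 (hle hw), ?_⟩
      intro hx
      exact ((adj' v w).1 (mem_nb.1 hx)).2 hw⟩) (fun v hv => by
      have e1 : ((dT G' T v : ℕ) : ℝ) ≤ dT G T v := by exact_mod_cast dT_mono hGG T v
      exact e1.trans (h1 v hv)) (fun v x hv hx hvx => by
      have e1 := dT_mono hGG T v
      have e2 := dT_mono hGG T x
      have e3 := h2 v x hv hx (hGG hvx)
      by_cases hvP : v ∈ P
      · have e4 : dT G' P v = 0 := by
          unfold dT
          rw [card_eq_zero, eq_empty_iff_forall_notMem]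
          intro w hw
          rw [mem_filter, mem_nb] at hw
          exact hPi v w hvP hw.2 hw.1
        have e5 := hF1 v
        omega
      · rw [hF0 v hvP, card_empty]
        have := hP2 v
        omega) (fun x hx => by
      have e1 : ((dT G' T x : ℕ) : ℝ) ≤ dT G T x := by exact_mod_cast dT_mono hGG T x
      have e2 : ((dg G' x : ℕ) : ℝ) ≤ dg G x := by exact_mod_cast dg_mono hGG x
      have e3 := h3 x hx
      push_cast
      linarith) (fun x y hx hy hxy => by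
      have e1 : ((dT G' T y : ℕ) : ℝ) ≤ dT G T y := by exact_mod_cast dT_mono hGG T y
      have e2 : ((dg G' x : ℕ) : ℝ) ≤ dg G x := by exact_mod_cast dg_mono hGG x
      have e3 := h4 x y hx hy (hGG hxy)
      linarith)
  have hd1 : ∀ u v, H.Adj u v → (fun e => if e ∈ H.edgeSet then d e else χ e) s(u, v) =
      d s(u, v) := by
    intro u v h
    have h' : s(u, v) ∈ H.edgeSet := h
    simp only [h', if_true]
  have hd2 : ∀ u v, ¬ H.Adj u v → (fun e => if e ∈ H.edgeSet then d e else χ e) s(u, v) =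
      χ s(u, v) := by
    intro u v h
    have h' : s(u, v) ∉ H.edgeSet := h
    simp only [h', if_false]
  refine ⟨f, fun e => if e ∈ H.edgeSet then d e else χ e, ?_, ?_, ?_, f1, ?_, f2, ?_⟩
  · intro u v huv
    by_cases h : H.Adj u v
    · rw [f1 u ((memP u).2 ⟨v, h⟩), f1 v ((memP v).2 ⟨u, h.symm⟩)]
      exact hc u v h
    · exact f3 u v ((adj' u v).2 ⟨huv, h⟩)
  · intro u v w huv huw hvw
    by_cases h5 : H.Adj u v
    · by_cases h6 : H.Adj u w
      · exact absurd (hmat u v w h5 h6) hvw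
      · rw [hd1 u v h5, hd2 u w h6]
        intro h7
        apply (f5 u w ((adj' u w).2 ⟨huw, h6⟩)).2
        rw [← h7]
        exact hFm u v h5
    · by_cases h6 : H.Adj u w
      · rw [hd2 u v h5, hd1 u w h6]
        intro h7
        apply (f5 u v ((adj' u v).2 ⟨huv, h5⟩)).2
        rw [h7]
        exact hFm u w h6
      · rw [hd2 u v h5, hd2 u w h6]
        exact f4.2 u v w ((adj' u v).2 ⟨huv, h5⟩) ((adj' u w).2 ⟨huw, h6⟩) hvw
  · intro u v huv
    by_cases h : H.Adj u v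
    · rw [hd1 u v h, f1 u ((memP u).2 ⟨v, h⟩)]
      exact hd u v h
    · rw [hd2 u v h]
      intro h7
      exact (f5 u v ((adj' u v).2 ⟨huv, h⟩)).1 ((win_one _ _).2 h7)
  · intro e he
    simp only [he, if_true]
  · intro e he hne
    simp only [hne, if_false]
    induction e using Sym2.ind with
    | _ u v => exact f4.1 u v ((adj' u v).2 ⟨he, hne⟩)

end Pool.Agent.Run7.h320.E
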