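import Pool.Agent.Run7.h320.E.Two

/-!
# Total labelings from lists when few edges meet the vertices of large degree: all steps
-/

set_option autoImplicit false
set_option linter.unusedSectionVars false

namespace Pool.Agent.Run7.h320.E

open Finset

section
variable {V : Type} [Fintype V] [DecidableEq V]

/-- the last step: the edges outside `T` -/
theorem step3 {ε : ℝ} {D p : ℕ} (hp : 1 ≤ p)
    (hlk : ∀ (V C : Type) [Fintype V] [DecidableEq V] [DecidableEq C] [Nonempty C]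
      (G : SimpleGraph V) (Λ : Sym2 V → Finset C), (∀ v, dg G v ≤ D) →
      (∀ u v, G.Adj u v → (dg G u : ℝ) + ε / 2 * D ≤ (Λ s(u, v)).card) → ∃ χ, EC G Λ χ)
    (hpD : 4 * (p + 1 : ℝ) ≤ ε * D) (G : SimpleGraph V) (T P : Finset V)
    (L : Sym2 V → Finset ℕ) (f : V → ℕ) (F : V → Finset ℕ) (hdeg : ∀ v, dg G v ≤ D)
    (hL : ∀ u v, G.Adj u v → D + 2 * p - 1 ≤ (L s(u, v)).card)
    (hP : ∀ u v, u ∈ P → v ∈ P → ¬ G.Adj u v)
    (hF0 : ∀ v, v ∉ P → F v = ∅) (hF1 : ∀ v ∈ P, (F v).card ≤ 1)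
    (h4 : ∀ x y, x ∉ T → y ∉ T → G.Adj x y → (dg G x : ℝ) + dT G T y ≤ (1 - ε) * D)
    {χ₀ : Sym2 V → ℕ} (hχ₀ : EC (rst G (fun u _ => u ∈ T)) L χ₀)
    (hχ₀' : ∀ u v, u ∈ T → G.Adj u v → χ₀ s(u, v) ∉ win p (f u) ∧ χ₀ s(u, v) ∉ F u ∧
      χ₀ s(u, v) ∉ win p (f v) ∧ χ₀ s(u, v) ∉ F v) :
    ∃ χ : Sym2 V → ℕ, EC G L χ ∧
      ∀ u v, G.Adj u v → χ s(u, v) ∉ win p (f u) ∧ χ s(u, v) ∉ F u := by
  classical
  obtain ⟨G₀, hG₀⟩ : ∃ G₀ : SimpleGraph V, G₀ = rst G (fun u _ => u ∈ T) := ⟨_, rfl⟩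
  rw [← hG₀] at hχ₀
  obtain ⟨G₃, hG₃⟩ : ∃ G₃ : SimpleGraph V, G₃ = rst G (fun u v => u ∉ T ∧ v ∉ T) := ⟨_, rfl⟩
  have a0 : ∀ u v, G₀.Adj u v ↔ G.Adj u v ∧ (u ∈ T ∨ v ∈ T) := by
    intro u v
    rw [hG₀, rst_adj]
  have a3 : ∀ u v, G₃.Adj u v ↔ G.Adj u v ∧ (u ∉ T ∧ v ∉ T) := by
    intro u v
    rw [hG₃, rst_adj]
    tauto
  have hDR : (0 : ℝ) ≤ D := Nat.cast_nonneg _
  have hpR : (1 : ℝ) ≤ p := by exact_mod_cast hp
  have hFc : ∀ v, (F v).card ≤ 1 := by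
    intro v
    by_cases hv : v ∈ P
    · exact hF1 v hv
    · rw [hF0 v hv, card_empty]
      exact Nat.zero_le _
  obtain ⟨B, hB⟩ : ∃ B : V → Finset ℕ, B = fun v => (win p (f v) ∪ F v) ∪ us G₀ χ₀ v := ⟨_, rfl⟩
  have memB : ∀ v x, x ∈ B v ↔ (x ∈ win p (f v) ∨ x ∈ F v) ∨ x ∈ us G₀ χ₀ v := by
    intro v x
    rw [hB, mem_union, mem_union]
  have hBc : ∀ v, (B v).card ≤ 2 * p - 1 + (F v).card + dg G₀ v := by
    intro v
    rw [hB]
    refine (card_union_le _ _).trans (add_le_add ?_ (card_us_le _ _ _))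
    exact (card_union_le _ _).trans (Nat.add_le_add_right (card_win p _) _)
  have hFF : ∀ u v, G.Adj u v → (F u).card + (F v).card ≤ 1 := by
    intro u v huv
    by_cases hu : u ∈ P
    · have hv : v ∉ P := fun hv => hP u v hu hv huv
      rw [hF0 v hv, card_empty]
      exact hFc u
    · rw [hF0 u hu, card_empty]
      have := hFc v
      omega
  have d0 : ∀ x, x ∉ T → dg G₀ x ≤ dT G T x := by
    intro x hx
    refine dg_mono' (S := (nb G x).filter (fun w => w ∈ T)) ?_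
    intro w hw
    rw [a0] at hw
    rw [mem_filter, mem_nb]
    tauto
  have d3 : ∀ x, x ∉ T → dg G₃ x + dT G T x ≤ dg G x := by
    intro x _
    unfold dg dT
    rw [← card_union_of_disjoint]
    · apply card_le_card
      intro w hw
      rw [mem_union, mem_filter, mem_nb, mem_nb, a3] at hw
      rw [mem_nb]
      tauto
    · rw [disjoint_left]
      intro w h5 h6
      rw [mem_nb, a3] at h5
      rw [mem_filter] at h6
      tauto
  have d3D : ∀ v, dg G₃ v ≤ D := by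
    intro v
    refine le_trans ?_ (hdeg v)
    refine dg_mono' (S := nb G v) ?_
    intro w hw
    exact mem_nb.2 ((a3 v w).1 hw).1
  obtain ⟨χ₃, hχ₃⟩ := hlk V ℕ G₃ (red L B) d3D (by
    intro u v huv
    rw [a3] at huv
    obtain ⟨huv, hu, hv⟩ := huv
    have e1 := card_red L B u v
    have e2 := hL u v huv
    have e3 := hBc u
    have e4 := hBc v
    have e5 := hFF u v huv
    have e6 := d0 u hu
    have e7 := d0 v hv
    have e8 := d3 u hu
    have e9 : dg G₃ u + D ≤ (red L B s(u, v)).card + 2 * p + dg G u + dT G T v := by omega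
    have e10 : (dg G₃ u : ℝ) + D ≤ (red L B s(u, v)).card + 2 * p + dg G u + dT G T v := by
      exact_mod_cast e9
    have e11 := h4 u v hu hv huv
    linarith)
  obtain ⟨χ, hχ, hχ1, hχ2⟩ := glue2 (G := G) (G₁ := G₀) (G₂ := G₃)
    (Λ := L) (Λ₂ := red L B) (χ₁ := χ₀) (χ₂ := χ₃) (by
      intro u v huv
      rw [a0, a3]
      tauto) hχ₀ hχ₃ (by
      intro u v _ x hx
      exact (mem_red.1 hx).1) (by
      intro u v w huv huw hc
      rw [mem_red] at hc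
      apply hc.2.1
      rw [memB]
      exact Or.inr (mem_us' huw))
  refine ⟨χ, hχ, ?_⟩
  intro u v huv
  by_cases h : G₀.Adj u v
  · rw [hχ1 u v h]
    rcases ((a0 u v).1 h).2 with hu | hv
    · have h5 := hχ₀' u v hu huv
      exact ⟨h5.1, h5.2.1⟩
    · have h5 := hχ₀' v u hv huv.symm
      rw [Sym2.eq_swap] at h5
      exact h5.2.2
  · rw [hχ2 u v h]
    have h6 : G₃.Adj u v := by
      rw [a3]
      rw [a0] at h
      tauto
    have h7 := (mem_red.1 (hχ₃.1 u v h6)).2.1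
    rw [memB, not_or, not_or] at h7
    exact h7.1

end

/-- total labelings from lists, with a precoloured part `P` -/
theorem tpg (ε : ℝ) (hε0 : 0 < ε) (hε1 : ε ≤ 1 / 2) : ∃ D₀ : ℕ, ∀ D p : ℕ, D₀ ≤ D → 1 ≤ p →
    4 * (p + 1 : ℝ) ≤ ε * D → ∀ (V : Type) [Fintype V] [DecidableEq V] (G : SimpleGraph V)
      (T P : Finset V) (M : V → Finset ℕ) (L : Sym2 V → Finset ℕ) (f₀ : V → ℕ)
      (F : V → Finset ℕ), (∀ v, dg G v ≤ D) → (∀ v, v ∉ P → D + 2 * p - 1 ≤ (M v).card) →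
      (∀ u v, G.Adj u v → D + 2 * p - 1 ≤ (L s(u, v)).card) →
      (∀ u v, u ∈ P → v ∈ P → ¬ G.Adj u v) → (∀ v, dT G P v ≤ 2) →
      (∀ v, v ∉ P → F v = ∅) → (∀ v ∈ P, (F v).card ≤ 1 ∧ dg G v + 1 ≤ D) →
      (∀ v ∈ T, (dT G T v : ℝ) ≤ (1 - ε) * D) →
      (∀ v x, v ∈ T → x ∉ T → G.Adj v x →
        dT G T v + dT G T x + dT G P v + (F v).card ≤ D) →
      (∀ x, x ∉ T → (dg G x : ℝ) + (2 * p - 1) * dT G T x ≤ (1 - ε) * D) →
      (∀ x y, x ∉ T → y ∉ T → G.Adj x y → (dg G x : ℝ) + dT G T y ≤ (1 - ε) * D) →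
      ∃ (f : V → ℕ) (χ : Sym2 V → ℕ), (∀ v ∈ P, f v = f₀ v) ∧ (∀ v, v ∉ P → f v ∈ M v) ∧
        (∀ u v, G.Adj u v → f u ≠ f v) ∧ EC G L χ ∧
        ∀ u v, G.Adj u v → χ s(u, v) ∉ win p (f u) ∧ χ s(u, v) ∉ F u := by
  classical
  obtain ⟨D₀, hD₀⟩ := lkg (ε / 2) (by positivity) (by linarith)
  refine ⟨D₀, ?_⟩
  intro D p hD hp hpD V _ _ G T P M L f₀ F hdeg hM hL hP hP2 hF0 hF1 h1 h2 h3 h4
  have hlk := hD₀ D hD
  have hDR : (0 : ℝ) ≤ D := Nat.cast_nonneg _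
  have hpR : (1 : ℝ) ≤ p := by exact_mod_cast hp
  have hD1 : D < D + 2 * p - 1 + 1 := by omega
  -- labels in `T`
  obtain ⟨f₁, f1A, f1W, f1p⟩ := greedy_lab G P (T \ P) disjoint_sdiff M f₀
    (fun u hu v hv huv => absurd huv (hP u v hu hv)) (by
    intro w hw
    have := hM w (mem_sdiff.1 hw).2
    have := hdeg w
    omega)
  have hTP : P ∪ (T \ P) = T ∪ P := by
    rw [union_sdiff_self_eq_union, union_comm]
  rw [hTP] at f1p
  -- the edges that meet `T`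
  obtain ⟨χ₀, c1, c2⟩ := step12 hε0 hε1 hp hlk hpD G T P L f₁ F hdeg hL hP hP2 hF0 hF1 h1 h2
    (fun x hx => by
      have e1 := h3 x hx
      have e2 : (0 : ℝ) ≤ (2 * p - 1) * dT G T x :=
        mul_nonneg (by linarith) (Nat.cast_nonneg _)
      linarith)
  -- labels outside `T`
  obtain ⟨bad, hbad⟩ : ∃ bad : V → Finset ℕ, bad = fun x =>
    ((nb G x).filter (fun w => w ∈ T)).biUnion (fun w => win p (χ₀ s(x, w))) := ⟨_, rfl⟩
  have hbadc : ∀ x, (bad x).card ≤ (2 * p - 1) * dT G T x := by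
    intro x
    rw [hbad]
    refine card_biUnion_le.trans ?_
    refine (sum_le_card_nsmul _ _ (2 * p - 1) (fun w _ => card_win p _)).trans ?_
    rw [smul_eq_mul, mul_comm]
    exact le_rfl
  obtain ⟨f, fA, fW, fp⟩ := greedy_lab G (T ∪ P) (univ \ (T ∪ P)) disjoint_sdiff
    (fun x => M x \ bad x) f₁ f1p (by
    intro w hw
    rw [mem_sdiff, mem_union, not_or] at hw
    have e1 := hM w hw.2.2
    have e2 := hbadc w
    have e3 := le_card_sdiff (bad w) (M w)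
    have e4 := h3 w hw.2.1
    have e5 : ((dg G w + (2 * p - 1) * dT G T w : ℕ) : ℝ) ≤ (1 - ε) * D := by
      refine le_trans (le_of_eq ?_) e4
      rw [Nat.cast_add, Nat.cast_mul, Nat.cast_sub (by omega)]
      push_cast
      ring
    have e6 : ((dg G w + (2 * p - 1) * dT G T w : ℕ) : ℝ) < (D + 1 : ℕ) := by
      push_cast at e5 ⊢
      have : 0 ≤ ε * (D : ℝ) := by positivity
      linarith
    have e7 : dg G w + (2 * p - 1) * dT G T w < D + 1 := by exact_mod_cast e6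
    omega)
  have hun : (T ∪ P) ∪ (univ \ (T ∪ P)) = univ :=
    union_sdiff_of_subset (subset_univ _)
  rw [hun] at fp
  have fT : ∀ v, v ∈ T → f v = f₁ v := fun v hv => fA v (mem_union_left _ hv)
  have fP : ∀ v, v ∈ P → f v = f₁ v := fun v hv => fA v (mem_union_right _ hv)
  obtain ⟨χ, hχ, hχ'⟩ := step3 hp hlk hpD G T P L f F hdeg hL hP hF0
    (fun v hv => (hF1 v hv).1) h4 c1 (by
    intro u v hu huv
    obtain ⟨q1, q2, q3⟩ := c2 u v hu huv
    by_cases hv : v ∈ T ∨ v ∈ P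
    · have q4 := q3 hv
      have e1 : f v = f₁ v := by
        rcases hv with hv | hv
        · exact fT v hv
        · exact fP v hv
      rw [fT u hu, e1]
      exact ⟨q1, q2, q4⟩
    · rw [not_or] at hv
      rw [fT u hu]
      refine ⟨q1, q2, ?_, ?_⟩
      · have e1 := fW v (mem_sdiff.2 ⟨mem_univ _, by
          rw [mem_union, not_or]
          exact hv⟩)
        rw [mem_sdiff] at e1
        intro hc
        apply e1.2
        rw [hbad, mem_biUnion]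
        refine ⟨u, mem_filter.2 ⟨mem_nb.2 huv.symm, hu⟩, ?_⟩
        rw [win_comm, Sym2.eq_swap]
        exact hc
      · rw [hF0 v hv.2]
        exact notMem_empty _)
  refine ⟨f, χ, ?_, ?_, ?_, hχ, hχ'⟩
  · intro v hv
    rw [fP v hv, f1A v hv]
  · intro v hv
    by_cases hvT : v ∈ T
    · rw [fT v hvT]
      exact f1W v (mem_sdiff.2 ⟨hvT, hv⟩)
    · exact (mem_sdiff.1 (fW v (mem_sdiff.2 ⟨mem_univ _, by
        rw [mem_union, not_or]
        exact ⟨hvT, hv⟩⟩))).1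
  · intro u v huv
    exact fp u (mem_univ _) v (mem_univ _) huv

end Pool.Agent.Run7.h320.E
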