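import Pool.Agent.Run7.h320.E.Eng
import Pool.Agent.Run7.h320.D.Lab

/-!
# Total labelings from lists when few edges meet the vertices of large degree
-/

set_option autoImplicit false
set_option linter.unusedSectionVars false

namespace Pool.Agent.Run7.h320.E

open Finset

/-- the labels at distance less than `p` from `a` -/
def win (p a : ℕ) : Finset ℕ := Finset.Ico (a + 1 - p) (a + p)

theorem mem_win {p a x : ℕ} : x ∈ win p a ↔ a < x + p ∧ x < a + p := by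
  unfold win
  rw [Finset.mem_Ico]
  omega

theorem win_comm {p a x : ℕ} : x ∈ win p a ↔ a ∈ win p x := by
  rw [mem_win, mem_win]
  tauto

theorem card_win (p a : ℕ) : (win p a).card ≤ 2 * p - 1 := by
  unfold win
  rw [Nat.card_Ico]
  omega

/-- the edges of `G` that satisfy `R` -/
def rst {V : Type} (G : SimpleGraph V) (R : V → V → Prop) : SimpleGraph V where
  Adj u v := G.Adj u v ∧ (R u v ∨ R v u)
  symm := ⟨fun _ _ h => ⟨h.1.symm, h.2.symm⟩⟩
  loopless := ⟨fun a h => G.loopless.irrefl a h.1⟩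

theorem rst_adj {V : Type} {G : SimpleGraph V} {R : V → V → Prop} {u v : V} :
    (rst G R).Adj u v ↔ G.Adj u v ∧ (R u v ∨ R v u) := Iff.rfl

section
variable {V : Type} [Fintype V] [DecidableEq V]

/-- the number of neighbours in `T` -/
noncomputable def dT (G : SimpleGraph V) (T : Finset V) (v : V) : ℕ :=
  ((nb G v).filter (fun w => w ∈ T)).card

theorem dg_mono' {G' : SimpleGraph V} {v : V} {S : Finset V} (h : ∀ w, G'.Adj v w → w ∈ S) :
    dg G' v ≤ S.card := by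
  unfold dg
  apply card_le_card
  intro w hw
  exact h w (mem_nb.1 hw)

theorem dT_le (G : SimpleGraph V) (T : Finset V) (v : V) : dT G T v ≤ dg G v :=
  card_filter_le _ _

theorem greedy_lab (G : SimpleGraph V) (A W : Finset V) (hd : Disjoint A W)
    (good : V → Finset ℕ) (f₀ : V → ℕ) (h₀ : ∀ u ∈ A, ∀ v ∈ A, G.Adj u v → f₀ u ≠ f₀ v)
    (hb : ∀ w ∈ W, dg G w < (good w).card) :
    ∃ f : V → ℕ, (∀ v ∈ A, f v = f₀ v) ∧ (∀ w ∈ W, f w ∈ good w) ∧
      ∀ u ∈ A ∪ W, ∀ v ∈ A ∪ W, G.Adj u v → f u ≠ f v := by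
  obtain ⟨f, f1, f2, f3, -⟩ := D.gcap (nb G) (fun u v h => mem_nb.2 (mem_nb.1 h).symm)
    (fun v h => G.loopless.irrefl v (mem_nb.1 h)) A good (W.card + 1) f₀
    (fun u hu v hv huv => h₀ u hu v hv (mem_nb.1 huv)) W hd (by
      intro w hw
      have h1 : (nb G w ∩ (A ∪ W)).card + 1 ≤ (good w).card :=
        lt_of_le_of_lt (card_le_card inter_subset_left) (hb w hw)
      have h2 := Nat.mul_le_mul_right (W.card + 1) h1
      rw [add_mul, one_mul] at h2
      omega) W (Subset.refl _)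
  exact ⟨f, f1, f2, fun u hu v hv huv => f3 u hu v hv (mem_nb.2 huv)⟩

/-- the first two steps: the edges that meet `T` -/
theorem step12 {ε : ℝ} (hε0 : 0 < ε) (hε1 : ε ≤ 1 / 2) {D p : ℕ} (hp : 1 ≤ p)
    (hlk : ∀ (V C : Type) [Fintype V] [DecidableEq V] [DecidableEq C] [Nonempty C]
      (G : SimpleGraph V) (Λ : Sym2 V → Finset C), (∀ v, dg G v ≤ D) →
      (∀ u v, G.Adj u v → (dg G u : ℝ) + ε / 2 * D ≤ (Λ s(u, v)).card) → ∃ χ, EC G Λ χ)
    (hpD : 4 * (p + 1 : ℝ) ≤ ε * D) (G : SimpleGraph V) (T P : Finset V)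
    (L : Sym2 V → Finset ℕ) (f₁ : V → ℕ) (F : V → Finset ℕ) (hdeg : ∀ v, dg G v ≤ D)
    (hL : ∀ u v, G.Adj u v → D + 2 * p - 1 ≤ (L s(u, v)).card)
    (hP : ∀ u v, u ∈ P → v ∈ P → ¬ G.Adj u v) (hP2 : ∀ v, dT G P v ≤ 2)
    (hF0 : ∀ v, v ∉ P → F v = ∅) (hF1 : ∀ v ∈ P, (F v).card ≤ 1 ∧ dg G v + 1 ≤ D)
    (h1 : ∀ v ∈ T, (dT G T v : ℝ) ≤ (1 - ε) * D)
    (h2 : ∀ v x, v ∈ T → x ∉ T → G.Adj v x → dT G T v + dT G T x + dT G P v + (F v).card ≤ D)
    (h3 : ∀ x, x ∉ T → (dg G x : ℝ) ≤ (1 - ε) * D) :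
    ∃ χ : Sym2 V → ℕ, EC (rst G (fun u _ => u ∈ T)) L χ ∧
      ∀ u v, u ∈ T → G.Adj u v → χ s(u, v) ∉ win p (f₁ u) ∧ χ s(u, v) ∉ F u ∧
        (v ∈ T ∨ v ∈ P → χ s(u, v) ∉ win p (f₁ v) ∧ χ s(u, v) ∉ F v) := by
  classical
  obtain ⟨G₁, hG₁⟩ : ∃ G₁ : SimpleGraph V, G₁ = rst G (fun u v => u ∈ T ∧ (v ∈ T ∨ v ∈ P)) :=
    ⟨_, rfl⟩
  obtain ⟨G₂, hG₂⟩ : ∃ G₂ : SimpleGraph V, G₂ = rst G (fun u v => u ∈ T ∧ v ∉ T ∧ v ∉ P) :=
    ⟨_, rfl⟩
  have a1 : ∀ u v, G₁.Adj u v ↔ G.Adj u v ∧ ((u ∈ T ∧ (v ∈ T ∨ v ∈ P)) ∨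
      (v ∈ T ∧ (u ∈ T ∨ u ∈ P))) := by
    intro u v
    rw [hG₁, rst_adj]
  have a2 : ∀ u v, G₂.Adj u v ↔ G.Adj u v ∧ ((u ∈ T ∧ v ∉ T ∧ v ∉ P) ∨
      (v ∈ T ∧ u ∉ T ∧ u ∉ P)) := by
    intro u v
    rw [hG₂, rst_adj]
  have hDR : (0 : ℝ) ≤ D := Nat.cast_nonneg _
  have hpR : (1 : ℝ) ≤ p := by exact_mod_cast hp
  have hFc : ∀ v, (F v).card ≤ 1 := by
    intro v
    by_cases hv : v ∈ P
    · exact (hF1 v hv).1
    · rw [hF0 v hv, card_empty]
      exact Nat.zero_le _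
  obtain ⟨B, hB⟩ : ∃ B : V → Finset ℕ, B = fun v => win p (f₁ v) ∪ F v := ⟨_, rfl⟩
  have memB : ∀ v x, x ∈ B v ↔ x ∈ win p (f₁ v) ∨ x ∈ F v := by
    intro v x
    rw [hB, mem_union]
  have hBc : ∀ v, (B v).card ≤ 2 * p - 1 + (F v).card := by
    intro v
    rw [hB]
    exact (card_union_le _ _).trans (Nat.add_le_add_right (card_win p _) _)
  have hFF : ∀ u v, G.Adj u v → (F u).card + (F v).card ≤ 1 := by
    intro u v huv
    by_cases hu : u ∈ P
    · have hv : v ∉ P := fun hv => hP u v hu hv huv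
      rw [hF0 v hv, card_empty]
      exact hFc u
    · rw [hF0 u hu, card_empty]
      have := hFc v
      omega
  -- degrees in `G₁`
  have dg1 : ∀ v ∈ T, dg G₁ v ≤ dT G T v + dT G P v := by
    intro v hv
    refine (dg_mono' (S := (nb G v).filter (fun w => w ∈ T) ∪ (nb G v).filter (fun w => w ∈ P))
      ?_).trans (card_union_le _ _)
    intro w hw
    rw [a1] at hw
    rw [mem_union, mem_filter, mem_filter, mem_nb]
    rcases hw.2 with h | h
    · rcases h.2 with h' | h'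
      · exact Or.inl ⟨hw.1, h'⟩
      · exact Or.inr ⟨hw.1, h'⟩
    · exact Or.inl ⟨hw.1, h.1⟩
  have dg1' : ∀ v, v ∉ T → dg G₁ v ≤ dg G v := by
    intro v _
    refine dg_mono' (S := nb G v) ?_
    intro w hw
    exact mem_nb.2 ((a1 v w).1 hw).1
  have dg1R : ∀ v, (dg G₁ v : ℝ) ≤ (1 - ε) * D + 2 := by
    intro v
    by_cases hv : v ∈ T
    · have e1 : (dg G₁ v : ℝ) ≤ dT G T v + dT G P v := by exact_mod_cast dg1 v hv
      have e2 : (dT G P v : ℝ) ≤ 2 := by exact_mod_cast hP2 v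
      have e3 := h1 v hv
      linarith
    · have e1 : (dg G₁ v : ℝ) ≤ dg G v := by exact_mod_cast dg1' v hv
      have e3 := h3 v hv
      linarith
  have dg1D : ∀ v, dg G₁ v ≤ D := by
    intro v
    have h3 := dg1R v
    have : (dg G₁ v : ℝ) ≤ D := by linarith
    exact_mod_cast this
  obtain ⟨χ₁, hχ₁⟩ := hlk V ℕ G₁ (red L B) dg1D (by
    intro u v huv
    have e1 := card_red L B u v
    have e2 := hL u v ((a1 u v).1 huv).1
    have e3 := hBc u
    have e4 := hBc v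
    have e5 := hFF u v ((a1 u v).1 huv).1
    have e6 : D ≤ (red L B s(u, v)).card + 2 * p := by omega
    have e7 : (D : ℝ) ≤ (red L B s(u, v)).card + 2 * p := by exact_mod_cast e6
    have e8 := dg1R u
    linarith)
  -- the edges between `T` and the remaining vertices
  obtain ⟨B', hB'⟩ : ∃ B' : V → Finset ℕ, B' = fun v =>
    if v ∈ T then B v ∪ us G₁ χ₁ v else ∅ := ⟨_, rfl⟩
  have hB'T : ∀ v ∈ T, B' v = B v ∪ us G₁ χ₁ v := by
    intro v hv
    rw [hB']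
    exact if_pos hv
  have hB'0 : ∀ v, v ∉ T → B' v = ∅ := by
    intro v hv
    rw [hB']
    exact if_neg hv
  have hB'c : ∀ v ∈ T, (B' v).card ≤ 2 * p - 1 + (F v).card + dg G₁ v := by
    intro v hv
    rw [hB'T v hv]
    exact (card_union_le _ _).trans (add_le_add (hBc v) (card_us_le _ _ _))
  have dg2 : ∀ v ∈ T, dg G₁ v + dg G₂ v ≤ dg G v := by
    intro v hv
    unfold dg
    rw [← card_union_of_disjoint]
    · apply card_le_card
      intro w hw
      rw [mem_union, mem_nb, mem_nb, a1, a2] at hw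
      rw [mem_nb]
      rcases hw with h | h
      · exact h.1
      · exact h.1
    · rw [disjoint_left]
      intro w h4 h5
      rw [mem_nb, a1] at h4
      rw [mem_nb, a2] at h5
      tauto
  have dg2' : ∀ x, x ∉ T → dg G₂ x ≤ dT G T x := by
    intro x hx
    refine dg_mono' (S := (nb G x).filter (fun w => w ∈ T)) ?_
    intro w hw
    rw [a2] at hw
    rw [mem_filter, mem_nb]
    tauto
  have hΛ2 : ∀ u v, u ∈ T → G₂.Adj u v →
      D ≤ (red L B' s(u, v)).card + ((F u).card + dg G₁ u) := by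
    intro u v hu huv
    have hv : v ∉ T := by
      rw [a2] at huv
      tauto
    have e1 := card_red L B' u v
    have e2 := hL u v ((a2 u v).1 huv).1
    have e3 := hB'c u hu
    rw [hB'0 v hv, card_empty] at e1
    omega
  obtain ⟨χ₂, hχ₂⟩ := bkg (G := G₂) (T := T) (Λ := red L B') (by
    intro u v huv
    rw [a2] at huv
    tauto) (by
    intro u v hu huv
    have e1 := hΛ2 u v hu huv
    have e2 := dg2 u hu
    have e3 : dg G u + (F u).card ≤ D := by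
      by_cases hu' : u ∈ P
      · have := hF1 u hu'
        omega
      · rw [hF0 u hu', card_empty]
        exact hdeg u
    omega) (by
    intro u v hu huv
    have e1 := hΛ2 u v hu huv
    have hv : v ∉ T := by
      rw [a2] at huv
      tauto
    have e2 := dg2' v hv
    have e3 := h2 u v hu hv ((a2 u v).1 huv).1
    have e4 := dg1 u hu
    omega)
  obtain ⟨χ, hχ, hχ1, hχ2⟩ := glue2 (G := rst G (fun u _ => u ∈ T)) (G₁ := G₁) (G₂ := G₂)
    (Λ := L) (Λ₂ := red L B') (χ₁ := χ₁) (χ₂ := χ₂) (by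
      intro u v huv
      rw [rst_adj] at huv
      rw [a1, a2]
      tauto) ⟨fun u v huv => (mem_red.1 (hχ₁.1 u v huv)).1, hχ₁.2⟩ hχ₂ (by
      intro u v _ x hx
      exact (mem_red.1 hx).1) (by
      intro u v w huv huw hc
      rw [mem_red] at hc
      have hu : u ∈ T := by
        rw [a2] at huv
        rw [a1] at huw
        tauto
      apply hc.2.1
      rw [hB'T u hu, mem_union]
      exact Or.inr (mem_us' huw))
  refine ⟨χ, hχ, ?_⟩
  intro u v hu huv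
  by_cases hv : v ∈ T ∨ v ∈ P
  · have h6 : G₁.Adj u v := (a1 u v).2 ⟨huv, Or.inl ⟨hu, hv⟩⟩
    rw [hχ1 u v h6]
    have h7 := mem_red.1 (hχ₁.1 u v h6)
    rw [memB, memB, not_or, not_or] at h7
    exact ⟨h7.2.1.1, h7.2.1.2, fun _ => h7.2.2⟩
  · have h6 : G₂.Adj u v := (a2 u v).2 ⟨huv, Or.inl ⟨hu, fun h => hv (Or.inl h),
      fun h => hv (Or.inr h)⟩⟩
    have h8 : ¬ G₁.Adj u v := by
      rw [a1]
      rw [a2] at h6
      tauto
    rw [hχ2 u v h8]
    have h7 := (mem_red.1 (hχ₂.1 u v h6)).2.1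
    rw [hB'T u hu, mem_union, not_or, memB, not_or] at h7
    exact ⟨h7.1.1, h7.1.2, fun h => absurd h hv⟩

end

end Pool.Agent.Run7.h320.E
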